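import Pool.Agent.Helper98.EY.StmtsC
import Pool.Agent.Helper91.EX.DT1

/-! # ENDZ: the last profile is close to the highest state -/

set_option autoImplicit false

namespace Pool.Agent.Helper98.EX

open Finset Filter
open scoped Topology

/-- numeric facts -/
theorem endz_num (c : ℝ) (hc : 0 < c) : ∃ N0 : ℕ, ∀ N : ℕ, N0 ≤ N → 1 ≤ N ∧ 2 ≤ Real.log N ∧
    Real.log N ^ 720 + 1 ≤ c * N := by
  have htend : Tendsto (fun N : ℕ => Real.log N) atTop atTop :=
    Real.tendsto_log_atTop.comp tendsto_natCast_atTop_atTop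
  have h1 := (Real.isLittleO_pow_log_id_atTop (n := 720)).def (show (0 : ℝ) < c / 2 by positivity)
  have h2 := (tendsto_natCast_atTop_atTop (R := ℝ)).eventually h1
  have h3 : ∀ᶠ N : ℕ in atTop, (2 / c : ℝ) ≤ N :=
    (tendsto_natCast_atTop_atTop (R := ℝ)).eventually_ge_atTop _
  obtain ⟨N0, hN0⟩ := eventually_atTop.1 ((htend.eventually_ge_atTop 2).and
    (h2.and (h3.and (eventually_ge_atTop 1))))
  refine ⟨N0, fun N hN => ?_⟩
  obtain ⟨a1, a2, a3, a4⟩ := hN0 N hN
  refine ⟨a4, a1, ?_⟩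
  have hL : 0 ≤ Real.log N := by linarith
  simp only [id] at a2
  rw [Real.norm_of_nonneg (by positivity), Real.norm_of_nonneg (by positivity)] at a2
  rw [div_le_iff₀ hc] at a3
  nlinarith

theorem endz_p (L P : ℝ) (hL : 2 ≤ L) (hP : P ≤ L ^ 466) (hP0 : 0 ≤ P) (R : ℝ) (hR0 : 0 ≤ R)
    (hR : R ≤ 2 * L ^ 243 + 3) :
    2 * (P + 1) * R + L ^ 231 ≤ L ^ 720 := by
  have h1 : (1 : ℝ) ≤ L ^ 466 := one_le_pow₀ (by linarith)
  have h2 : (2 : ℝ) ≤ L ^ 243 := by
    calc (2 : ℝ) ≤ L := hL
      _ = L ^ 1 := (pow_one L).symm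
      _ ≤ L ^ 243 := pow_le_pow_right₀ (by linarith) (by norm_num)
  have h3 : 2 * (P + 1) * R ≤ 2 * (2 * L ^ 466) * (4 * L ^ 243) := by
    apply mul_le_mul _ (by linarith) hR0 (by positivity)
    linarith
  have h4 : 2 * (2 * L ^ 466) * (4 * L ^ 243) = 16 * L ^ 709 := by ring
  have h5 : L ^ 231 ≤ L ^ 709 := pow_le_pow_right₀ (by linarith) (by norm_num)
  have h6 : (2 : ℝ) ^ 11 ≤ L ^ 11 := pow_le_pow_left₀ (by norm_num) hL 11
  have h7 : L ^ 720 = L ^ 709 * L ^ 11 := by ring
  have h8 : 0 ≤ L ^ 709 := by positivity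
  rw [h7]
  nlinarith

/-- position of a site between two barriers -/
theorem endz_find {N p : ℕ} {bb : ℕ → ℕ} (h0 : bb 0 = 0) (hN : bb (p + 1) = N) (y : ℕ)
    (hy : y ≤ N) : ∃ i, i ≤ p ∧ bb i ≤ y ∧ y ≤ bb (i + 1) := by
  by_contra hcon
  push Not at hcon
  have : ∀ i, i ≤ p + 1 → bb i ≤ y := by
    intro i
    induction i with
    | zero => intro _; rw [h0]; omega
    | succ i ih =>
      intro hi
      exact (hcon i (by omega) (ih (by omega))).le
  have h1 := this p (by omega)
  have h2 := hcon p le_rfl h1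
  omega

theorem st_ENDZ : ST_ENDZ := by
  intro c hc
  obtain ⟨N0, hN0⟩ := endz_num c hc
  refine ⟨N0, ?_⟩
  intro N p k bb hN hck hkc hBL _ hp ξ hξ
  obtain ⟨hN1, hL2, hLN⟩ := hN0 N hN
  obtain ⟨hξ0, η, hη, hle'⟩ := hξ
  have hNpos : (0 : ℝ) < N := by exact_mod_cast hN1
  have hkpos : (0 : ℝ) < k := lt_of_lt_of_le (by positivity) hck
  have hk0 : 0 < k := by exact_mod_cast hkpos
  have hkN' : (k : ℝ) ≤ N := by nlinarith
  have hkN : k ≤ N := by exact_mod_cast hkN'
  set L := Real.log N with hLdef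
  set n := ⌈L ^ 720⌉₊ with hn
  have hnle : (n : ℝ) ≤ L ^ 720 + 1 := (Nat.ceil_lt_add_one (by positivity)).le
  have hn1 : n ≤ k := by
    have : (n : ℝ) ≤ k := by linarith
    exact_mod_cast this
  have hn2 : n ≤ N - k := by
    have : (n : ℝ) + k ≤ N := by linarith
    have h2 : n + k ≤ N := by exact_mod_cast this
    omega
  -- the reserve
  set R := rs N with hR
  have hRle : (R : ℝ) ≤ 2 * L ^ 243 + 3 := by
    have h1 : (⌈2 * L ^ 243⌉₊ : ℝ) < 2 * L ^ 243 + 1 := Nat.ceil_lt_add_one (by positivity)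
    rw [hR]
    unfold rs
    push_cast
    linarith
  have hmain := endz_p L p hL2 hp (Nat.cast_nonneg p) R (Nat.cast_nonneg R) hRle
  have hnat : ∀ c' : ℕ, (c' : ℝ) ≤ L ^ 231 → 2 * (p + 1) * R + c' ≤ n := by
    intro c' hc'
    have h1 : ((2 * (p + 1) * R + c' : ℕ) : ℝ) ≤ L ^ 720 := by
      push_cast
      linarith
    have h2 := h1.trans (Nat.le_ceil (L ^ 720))
    exact_mod_cast h2
  apply dt1_zet hkN hn1 hn2 hξ0
  intro y hy
  have hy1 := hle' y
  rw [add_zero] at hy1
  refine le_trans ?_ (Nat.add_le_add_right hy1 n)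
  obtain ⟨i, hip, hAy, hyB⟩ := endz_find hBL.b0 hBL.bN y hy
  have hBN : bb (i + 1) ≤ N := by
    have hmono : ∀ j, j ≤ p + 1 → ∀ d, j + d ≤ p + 1 → bb j ≤ bb (j + d) := by
      intro j hj d
      induction d with
      | zero => intro _; simp
      | succ d ih =>
        intro hd
        have h1 := ih (by omega)
        have h2 := hBL.gap (j + d) (by omega)
        have h3 : (bb (j + d) : ℝ) ≤ bb (j + d + 1) := by
          have : (0 : ℝ) ≤ (N : ℝ) ^ (1 / 2 : ℝ) := by positivity
          linarith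
        have h4 : bb (j + d) ≤ bb (j + d + 1) := by exact_mod_cast h3
        exact h1.trans h4
    have := hmono (i + 1) (by omega) (p - i) (by omega)
    have e : i + 1 + (p - i) = p + 1 := by omega
    rw [e, hBL.bN] at this
    exact this
  obtain ⟨hA, -, hS⟩ := hη i hip
  have hsrt := hS (by simp)
  obtain ⟨-, -, hcnt⟩ := hsrt
  set A := bb i with hAdef
  set B := bb (i + 1) with hBdef
  set x := xi bb (hz1 N p k bb) i with hx
  have hnc := hnat _ hcnt
  set cc := cnt η A x with hcc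
  -- the height at B
  have hB : ht η B = hz1 N p k bb (i + 1) := by
    rcases Nat.lt_or_ge i p with hlt | hge
    · exact (hη (i + 1) (by omega)).1
    · have e : i = p := by omega
      have e2 : B = N := by rw [hBdef, e, hBL.bN]
      rw [e2, ht_ge le_rfl, e]
      unfold hz1
      rw [hBL.bN, if_neg (by omega)]
      omega
  have hyB' : ht η B ≤ ht η y := ht_anti η hyB
  have hAy' : ht η A ≤ ht η y + (y - A) := ht_le_sub η hAy
  have hz : ∀ j, hz1 N p k bb j = if bb j ≤ N - k then k - j * R else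
    (N - bb j) - (p + 1 - j) * R := fun j => rfl
  have hiR : i * R ≤ p * R := Nat.mul_le_mul_right R hip
  have hiR' : (p + 1 - i) * R ≤ (p + 1) * R := Nat.mul_le_mul_right R (by omega)
  have hiR2 : (p + 1 - (i + 1)) * R ≤ p * R := Nat.mul_le_mul_right R (by omega)
  have hiR3 : (i + 1) * R ≤ (p + 1) * R := Nat.mul_le_mul_right R (by omega)
  have hpR : (p + 1) * R = p * R + R := by ring
  have hpR2 : 2 * (p + 1) * R = 2 * (p * R) + 2 * R := by ring
  rcases le_or_gt B (N - k) with c1 | c1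
  · -- left of the interface
    have h1 : ht η B = k - (i + 1) * R := by rw [hB, hz, if_pos c1]
    omega
  · have h1 : ht η B = (N - B) - (p + 1 - (i + 1)) * R := by
      rw [hB, hz, if_neg (by omega)]
    rcases le_or_gt A (N - k) with c2 | c2
    · -- the interval of the interface
      have h2 : ht η A = k - i * R := by rw [hA, hz, if_pos c2]
      have hxe : x = B - (ht η A - ht η B) := by rw [hA, hB, hx]; rfl
      rcases le_or_gt y x with c3 | c3
      · have h3 : ht η A = cc + ht η x := ht_cnt η (by omega) (by omega)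
        have h4 : ht η x ≤ ht η y := ht_anti η c3
        omega
      · rcases le_or_gt A x with c4 | c4
        · have h3 : ht η A = cc + ht η x := ht_cnt η c4 (by omega)
          have h4 : ht η x ≤ ht η y + (y - x) := ht_le_sub η c3.le
          omega
        · omega
    · -- right of the interface
      have h2 : ht η A = (N - A) - (p + 1 - i) * R := by rw [hA, hz, if_neg (by omega)]
      omega

end Pool.Agent.Helper98.EX
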