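import Pool.Agent.Helper98.EY.StmtsC
import Pool.Agent.Helper35.EY.EVPAIR
import Pool.Agent.Helper86.EY.MOMM

/-! # EVTRI: triple products of the window values -/

set_option autoImplicit false

namespace Pool.Agent.Helper98.EX

open Finset MeasureTheory ProbabilityTheory Filter
open scoped Topology ENNReal

/-- the first moment of a triple product -/
theorem evtri_mom {Ω : Type} [MeasurableSpace Ω] {P : Measure Ω} {X : ℕ → Ω → ℝ} {θ : ℝ}
    (h : IIDE P X) (hθ0 : 0 < θ) (hθ1 : θ < 1) (hM : Mom P X 1 ≤ ENNReal.ofReal θ) (N : ℕ)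
    (he1 : (N : ℝ) ^ (-100 : ℝ) ≤ (1 - θ) / 4) (a b y : ℕ) (ha : 1 ≤ a) (hab : a + 1 ≤ b)
    (hby : b ≤ y) :
    ∫⁻ ω, ENNReal.ofReal (vh (rE (EE X ω)) (mE N (EE X ω)) a (b - 1) *
      vp (rE (EE X ω)) (mE N (EE X ω)) b y / rE (EE X ω) b) ∂P ≤ ENNReal.ofReal 8 := by
  set θ' : ℝ := (1 + θ) / 2 with hθ'
  have hθ'0 : 0 < θ' := by rw [hθ']; linarith
  have hθ'1 : θ' < 1 := by rw [hθ']; linarith
  set e : ℝ := (N : ℝ) ^ (-100 : ℝ) with he
  have he0 : 0 ≤ e := by rw [he]; positivity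
  have heθ : θ + e * 2 ≤ θ' := by rw [hθ']; linarith
  have hd1 : Disjoint ({a - 1, a, b} : Finset ℕ) (Finset.Ioc a (b - 1) ∪ Finset.Ioc b y) := by
    rw [Finset.disjoint_left]
    intro c hc
    simp only [Finset.mem_insert, Finset.mem_singleton] at hc
    simp only [Finset.mem_union, Finset.mem_Ioc]
    omega
  have hK := momm_key h hθ0 hθ1 hM he0 heθ {a - 1, a, b} (Finset.Ioc a (b - 1) ∪ Finset.Ioc b y) hd1
  have hcard : ({a - 1, a, b} : Finset ℕ).card ≤ 3 := Finset.card_le_three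
  refine le_trans (le_of_eq ?_) (hK.trans ?_)
  · refine lintegral_congr fun ω => ?_
    congr 1
    have hvp : ∀ (z x : ℕ), z ≤ x → vp (rE (EE X ω)) (mE N (EE X ω)) z x =
        1 / X z ω * ∏ b ∈ Finset.Ioc z x, max (1 - X b ω) e / X b ω := by
      intro z x hzx
      obtain ⟨d, rfl⟩ := Nat.exists_eq_add_of_le hzx
      exact momm_vp (EE X ω) (mE N (EE X ω)) z d
    have h1 := hvp a (b - 1) (by omega)
    have h2 := hvp b y hby
    have hrb : rE (EE X ω) b = X (b - 1) ω := rfl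
    have hra : rE (EE X ω) a = X (a - 1) ω := rfl
    have h3 : vp (rE (EE X ω)) (mE N (EE X ω)) a (b - 1) =
        RR (rE (EE X ω)) (mE N (EE X ω)) a (b - 1) / X (b - 1) ω := by
      have h4 : b - 1 + 1 = b := by omega
      unfold vp
      rw [h4, hrb]
    have h5 : vh (rE (EE X ω)) (mE N (EE X ω)) a (b - 1) =
        RR (rE (EE X ω)) (mE N (EE X ω)) a (b - 1) / X (a - 1) ω := by
      unfold vh
      rw [hra]
    have hn1 : a - 1 ∉ ({a, b} : Finset ℕ) := by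
      simp only [Finset.mem_insert, Finset.mem_singleton]; omega
    have hd : Disjoint (Finset.Ioc a (b - 1)) (Finset.Ioc b y) := by
      rw [Finset.disjoint_left]
      intro c hc
      simp only [Finset.mem_Ioc] at hc ⊢
      omega
    rw [Finset.prod_insert hn1, Finset.prod_pair (by omega), Finset.prod_union hd, h5, h2, hrb]
    rw [h3] at h1
    calc RR (rE (EE X ω)) (mE N (EE X ω)) a (b - 1) / X (a - 1) ω *
          (1 / X b ω * ∏ c ∈ Finset.Ioc b y, max (1 - X c ω) e / X c ω) / X (b - 1) ω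
        = 1 / X (a - 1) ω * (RR (rE (EE X ω)) (mE N (EE X ω)) a (b - 1) / X (b - 1) ω) *
          (1 / X b ω * ∏ c ∈ Finset.Ioc b y, max (1 - X c ω) e / X c ω) := by ring
      _ = 1 / X (a - 1) ω * (1 / X a ω * ∏ c ∈ Finset.Ioc a (b - 1), max (1 - X c ω) e / X c ω) *
          (1 / X b ω * ∏ c ∈ Finset.Ioc b y, max (1 - X c ω) e / X c ω) := by rw [h1]
      _ = _ := by ring
  · apply ENNReal.ofReal_le_ofReal
    have h1 : (2 : ℝ) ^ ({a - 1, a, b} : Finset ℕ).card ≤ 2 ^ 3 :=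
      pow_le_pow_right₀ (by norm_num) hcard
    have h2 : θ' ^ (Finset.Ioc a (b - 1) ∪ Finset.Ioc b y).card ≤ 1 :=
      pow_le_one₀ hθ'0.le hθ'1.le
    have h3 : 0 ≤ θ' ^ (Finset.Ioc a (b - 1) ∪ Finset.Ioc b y).card := by positivity
    have h4 := mul_le_mul h1 h2 h3 (by norm_num)
    linarith

theorem st_EVTRI (_h : ST_MOMM) : ST_EVTRI := by
  intro Ω _ P X θ hX h0 h1 hM ηp hη
  obtain ⟨N0, hN0⟩ : ∃ N1 : ℕ, ∀ N : ℕ, N1 ≤ N → (N : ℝ) ^ (-100 : ℝ) ≤ (1 - θ) / 4 := by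
    have h1 : Tendsto (fun N : ℕ => (N : ℝ) ^ (-100 : ℝ)) atTop (𝓝 0) :=
      (tendsto_rpow_neg_atTop (by norm_num : (0 : ℝ) < 100)).comp tendsto_natCast_atTop_atTop
    have h2 : ∀ᶠ N : ℕ in atTop, (N : ℝ) ^ (-100 : ℝ) < (1 - θ) / 4 :=
      h1.eventually (gt_mem_nhds (by linarith))
    obtain ⟨N1, hN1⟩ := eventually_atTop.mp h2
    exact ⟨N1, fun N hN => (hN1 N hN).le⟩
  have htend : Tendsto (fun N : ℕ => Real.log N) atTop atTop :=
    Real.tendsto_log_atTop.comp tendsto_natCast_atTop_atTop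
  obtain ⟨N1, hN1⟩ := Filter.eventually_atTop.1
    (htend.eventually_ge_atTop (max 1 (8 * 8 / ηp)))
  refine ⟨max N0 (max N1 1), ?_⟩
  intro N hN
  have hNN0 : N0 ≤ N := le_trans (le_max_left _ _) hN
  have hNN1 : N1 ≤ N := le_trans (le_trans (le_max_left _ _) (le_max_right _ _)) hN
  have hN1' : 1 ≤ N := le_trans (le_trans (le_max_right _ _) (le_max_right _ _)) hN
  have hlog := hN1 N hNN1
  have hL1 : 1 ≤ Real.log N := le_trans (le_max_left _ _) hlog
  have hL2 : 8 * 8 / ηp ≤ Real.log N := le_trans (le_max_right _ _) hlog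
  have b1 := evpair_gen P (fun z _ z' y' ω => vh (rE (EE X ω)) (mE N (EE X ω)) z (z' - 1) *
      vp (rE (EE X ω)) (mE N (EE X ω)) z' y' / rE (EE X ω) z')
    (fun z y z' y' => y = z ∧ 1 ≤ z ∧ z + 1 ≤ z' ∧ z' ≤ y' ∧ y' + 1 < N ∧
      (y' : ℝ) ≤ z + Real.log N ^ 8) 8 ηp (by norm_num) hη N hN1' hL1 hL2
    (fun z _ z' y' => ((evpair_vh_meas hX N z (z' - 1)).mul (evpair_vp_meas hX N z' y')).div
      (hX.meas (z' - 1)))
    (by
      rintro z y z' y' ⟨q1, q2, q3, q4, q5, q6⟩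
      exact ⟨by omega, by omega, by omega, by omega, q4, by omega, q6⟩)
    (by
      rintro z y z' y' ⟨q1, q2, q3, q4, q5, q6⟩
      exact evtri_mom hX h0 h1 hM N (hN0 N hNN0) z z' y' q2 q3 q4)
  refine le_trans (measure_mono ?_) b1
  intro ω hω
  simp only [Set.mem_ofPred_eq, not_forall] at hω
  obtain ⟨a, b, y, ha, hab, hby, hyN, hyL, hlt⟩ := hω
  rw [not_le] at hlt
  refine ⟨a, a, b, y, ⟨rfl, ha, hab, hby, hyN, hyL⟩, ?_⟩
  have hpos : 0 < rE (EE X ω) b := (hX.rng (b - 1) ω).1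
  rw [lt_div_iff₀ hpos]
  exact hlt

end Pool.Agent.Helper98.EX
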